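import Pool.Agent.H73.GWT.Stmts

set_option autoImplicit false

open Classical

namespace GWT

variable {ι G V : Type*} [Fintype ι] [Group G] [MulAction G V] (C : Code ι G V)

namespace PVAaux

theorem dist_cube (s : ι) : C.T.dist C.o (C.c s ^ 3 • C.o) ≤ 3 * C.Λ := by
  have h1 : C.T.dist C.o (C.c s • C.o) = C.Λ := C.d1 s
  have h2 : C.T.dist (C.c s • C.o) (C.c s ^ 2 • C.o) = C.Λ := by
    rw [pow_two, mul_smul, C.ds]
    exact h1
  have h3 : C.T.dist (C.c s ^ 2 • C.o) (C.c s ^ 3 • C.o) = C.Λ := by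
    have e : C.c s ^ 3 • C.o = C.c s ^ 2 • C.c s • C.o := by rw [← mul_smul, ← pow_succ]
    rw [e, C.ds]
    exact h1
  have h4 := dtri C.tree C.o (C.c s • C.o) (C.c s ^ 3 • C.o)
  have h5 := dtri C.tree (C.c s • C.o) (C.c s ^ 2 • C.o) (C.c s ^ 3 • C.o)
  omega

theorem off_le (w : ℕ → G) (g : G) (s : ι) (m : List ι) : off C w g s m ≤ 6 * C.Λ := by
  have h1 : C.T.dist (g • C.o) (W C w m • C.c s • C.o) =
      C.T.dist ((C.c s ^ 4)⁻¹ • (W C w m)⁻¹ • g • C.o) ((C.c s ^ 3)⁻¹ • C.o) := by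
    have h2 : (C.c s ^ 3)⁻¹ • C.o = (C.c s ^ 4)⁻¹ • (W C w m)⁻¹ • W C w m • C.c s • C.o := by
      rw [inv_smul_smul, pow_succ, mul_inv_rev, mul_smul]
      rw [← mul_smul, ← mul_smul]
      congr 1
      group
    rw [h2, C.ds, C.ds]
  have h3 : C.T.dist C.o ((C.c s ^ 3)⁻¹ • C.o) ≤ 3 * C.Λ := by
    have h4 : C.T.dist C.o ((C.c s ^ 3)⁻¹ • C.o) = C.T.dist C.o (C.c s ^ 3 • C.o) := by
      rw [← C.ds (C.c s ^ 3) C.o ((C.c s ^ 3)⁻¹ • C.o), smul_inv_smul, dcomm]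
    rw [h4]
    exact dist_cube C s
  have h5 := dtri C.tree ((C.c s ^ 4)⁻¹ • (W C w m)⁻¹ • g • C.o) C.o ((C.c s ^ 3)⁻¹ • C.o)
  rw [dcomm ((C.c s ^ 4)⁻¹ • (W C w m)⁻¹ • g • C.o) C.o] at h5
  show C.T.dist (g • C.o) (W C w m • C.c s • C.o) + 3 * C.Λ -
    C.T.dist C.o ((C.c s ^ 4)⁻¹ • (W C w m)⁻¹ • g • C.o) ≤ 6 * C.Λ
  rw [h1]
  omega

theorem low (w : ℕ → G) (g : G) (β : ℕ) (z : V) (F : List (ι × List ι)) (acc b : List ι) (R : ℕ)
    (h : Ok C w z F b R) (hR : R < β) :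
    ∃ rs : List ι, (pop C w g β F acc b).1 = rs.map Sum.inr ∧ rs.length ≤ 1 := by
  have hΛ := C.Λ_pos
  cases F with
  | nil => exact ⟨[], rfl, by simp⟩
  | cons f F =>
    obtain ⟨h1, -, -, -, h5⟩ := h
    rw [pop]
    split_ifs with hp hq
    · omega
    · refine ⟨[f.1], ?_, by simp⟩
      have h6 : (pop C w g β F (acc ++ f.2 ++ [f.1]) b).1 = [] := by
        cases F with
        | nil => rfl
        | cons f' F' =>
          obtain ⟨h7, -, -, -, -⟩ := h5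
          rw [pop, if_neg]
          omega
      show Sum.inr f.1 :: (pop C w g β F (acc ++ f.2 ++ [f.1]) b).1 = _
      rw [h6]
      rfl
    · exact ⟨[], rfl, by simp⟩

end PVAaux

open PVAaux in
theorem PVA : PVAStmt C := by
  intro w g β z F
  induction F with
  | nil =>
    intro acc b R _
    exact ⟨[], [], rfl, by simp, by simp⟩
  | cons f F ih =>
    intro acc b R h
    obtain ⟨h1, -, -, -, h5⟩ := h
    rw [pop]
    split_ifs with hp hq
    · obtain ⟨us, rs, e1, e2, e3⟩ := ih (acc ++ f.2 ++ [f.1]) b _ h5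
      refine ⟨off C w g f.1 (full F b) :: us, rs, ?_, ?_, e3⟩
      · show Sum.inl _ :: (pop C w g β F (acc ++ f.2 ++ [f.1]) b).1 = _
        rw [e1]
        rfl
      · intro u hu
        rcases List.mem_cons.1 hu with hu | hu
        · rw [hu]
          exact off_le C w g f.1 _
        · exact e2 u hu
    · obtain ⟨rs, e1, e2⟩ := low C w g β z F (acc ++ f.2 ++ [f.1]) b _ h5 (by omega)
      refine ⟨[], f.1 :: rs, ?_, by simp, by simpa using e2⟩
      show Sum.inr f.1 :: (pop C w g β F (acc ++ f.2 ++ [f.1]) b).1 = _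
      rw [e1]
      rfl
    · exact ⟨[], [], rfl, by simp, by simp⟩

end GWT
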